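import Pool.Agent.TG.Main

/-!
# The first Tachikawa conjecture for graded commutative algebras

Let `k` be a field of characteristic different from `2` and let `A = A_0 + A_1 + ... + A_s` be a
finite dimensional commutative graded `k`-algebra with `A_0 = k`.  If `Ext^i_A(I, A) = 0` for all
finitely generated injective `A`-modules `I` and `1 ≤ i ≤ 3 s + 2`, then `A` is self-injective.
-/

set_option autoImplicit false

universe u

namespace Pool.Agent.TG.Kept.GradedCommutative

open CategoryTheory

/-- Tachikawa's first conjecture holds for all nonnegatively graded commutative finite dimensional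
algebras `A` with `A_0 = k`, `k` a field of characteristic different from `2`; if all degrees of
`A` are at most `s`, then the vanishing of `Ext^i_A(I, A)` is needed only for
`1 ≤ i ≤ 3 s + 2`. -/
theorem result (k A : Type u) [Field k] [CommRing A] [Algebra k A] [Module.Finite k A]
    (h2 : (2 : k) ≠ 0) (𝒜 : ℕ → Submodule k A) [GradedAlgebra 𝒜]
    (h0 : ∀ a ∈ 𝒜 0, ∃ c : k, a = algebraMap k A c) (s : ℕ)
    (hs : ∀ i, s < i → 𝒜 i = ⊥)
    (hv : ∀ I : ModuleCat.{u} A, Module.Finite A I → Module.Injective A I →
      ∀ i : ℕ, 0 < i → i ≤ 3 * s + 2 →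
        Subsingleton (Abelian.Ext.{u} I (ModuleCat.of A A) i)) :
    Module.Injective A A :=
  Pool.Agent.TG.main_alg h2 𝒜 h0 s hs (fun i hi hi' =>
    hv _ (Module.Finite.of_restrictScalars_finite k A (Pool.Agent.TG.Du k A))
      (Pool.Agent.TG.dual_inj k (Module.Basis.singleton Unit A)) i hi hi')

end Pool.Agent.TG.Kept.GradedCommutative
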