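import Pool.Agent.TG.Main

/-!
# Graded modules `M` with `Ext^i_A(M, M^*) = 0`

Let `k` be a field of characteristic different from `2`, let `A = A_0 + ... + A_s` be a finite
dimensional commutative graded `k`-algebra with `A_0 = k`, and let `M = M_0 + ... + M_t` be a
nonzero finite dimensional graded `A`-module.  If `Ext^i_A(M, M^*) = 0` for
`1 ≤ i ≤ 2 t + s + 2`, where `M^* = Hom_k(M, k)`, then `dim M ≥ dim A`, with equality only if
`M` is isomorphic to `A`.
-/

set_option autoImplicit false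

universe u

namespace Pool.Agent.Results.MP_95779f_al.GradedModules

open CategoryTheory Pool.Agent.TG

theorem result (k A M : Type u) [Field k] [CommRing A] [Algebra k A] [Module.Finite k A]
    [AddCommGroup M] [Module k M] [Module A M] [IsScalarTower k A M] [Module.Finite k M]
    [Nontrivial M]
    (h2 : (2 : k) ≠ 0) (𝒜 : ℕ → Submodule k A) [GradedAlgebra 𝒜]
    (h0 : ∀ a ∈ 𝒜 0, ∃ c : k, a = algebraMap k A c) (s : ℕ)
    (hs : ∀ i, s < i → 𝒜 i = ⊥) (ℳ : ℕ → Submodule k M) [DirectSum.Decomposition ℳ]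
    (hsm : ∀ (i j : ℕ) (a : A) (m : M), a ∈ 𝒜 i → m ∈ ℳ j → a • m ∈ ℳ (i + j)) (t : ℕ)
    (ht : ∀ i, t < i → ℳ i = ⊥)
    (hv : ∀ i : ℕ, 0 < i → i ≤ 2 * t + s + 2 →
      Subsingleton (Abelian.Ext.{u} (ModuleCat.of A M) (ModuleCat.of A (Du k M)) i)) :
    Module.finrank k A ≤ Module.finrank k M ∧
      (Module.finrank k A = Module.finrank k M → Nonempty (M ≃ₗ[A] A)) :=
  main_mod h2 𝒜 h0 s hs ℳ hsm t ht hv

end Pool.Agent.Results.MP_95779f_al.GradedModules
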